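import Pool.Agent.H56.ER2.Targets

/-!
# Row CNI of the board er2_modules (helper21)
-/

set_option autoImplicit false

open Pool.Agent.H48.ER Pool.Agent.H52.ER2 Pool.Agent.H66.ER2 Pool.Agent.H56.ER2

namespace Pool.Agent.H21.ER2

theorem pf_CNI : T_CNI := by
  rintro V G n x y R ⟨g, -, -, -, ga, hR⟩ X hXR hne hcl
  have hmem : ∀ i, i ≤ n → g i ∈ R := fun i hi => by rw [hR]; exact ⟨i, hi, rfl⟩
  obtain ⟨v, hv⟩ := hne
  have hvR := hXR hv
  rw [hR] at hvR
  obtain ⟨i, hi, rfl⟩ := hvR
  have hup : ∀ k, i + k ≤ n → g (i + k) ∈ X := by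
    intro k
    induction k with
    | zero => intro _; exact hv
    | succ k ih =>
      intro hk
      have h1 := ih (by omega)
      exact hcl _ h1 _ (hmem _ hk) ((ga _ _ (by omega) hk).2 (Or.inl (by omega)))
  have hdn : ∀ k, k ≤ i → g (i - k) ∈ X := by
    intro k
    induction k with
    | zero => intro _; exact hv
    | succ k ih =>
      intro hk
      have h1 := ih (by omega)
      exact hcl _ h1 _ (hmem _ (by omega)) ((ga _ _ (by omega) (by omega)).2
        (Or.inr (by omega)))
  refine Set.Subset.antisymm hXR ?_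
  intro w hw
  rw [hR] at hw
  obtain ⟨j, hj, rfl⟩ := hw
  rcases le_total i j with h | h
  · have := hup (j - i) (by omega)
    rwa [show i + (j - i) = j from by omega] at this
  · have := hdn (i - j) (by omega)
    rwa [show i - (i - j) = j from by omega] at this

end Pool.Agent.H21.ER2
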