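import Pool.Agent.H66.ER2.Targets
import Pool.Agent.H66.ER2.Lib

/-!
# Row MPC of the board er2_modules (helper21)

The new vertex of a meet is not a corner of an odd prism.
-/

set_option autoImplicit false

open Pool.Agent.H48.ER Pool.Agent.H52.ER2 Pool.Agent.H66.ER2

namespace Pool.Agent.H21.ER2

/-- one of the two vertices has no further neighbours on the cycle: a prism -/
theorem one (hEVN : T_EVN) {V : Type} {G : SimpleGraph V} {c : V} {k n m : ℕ}
    {y b1 a2 b2 a3 b3 : V} {Y P Q : Set V} (noh : NOH G) (nop : NOP G)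
    (cy : Cyc G n m a2 b2 a3 b3 P Q) (ipY : IP G k y b1 Y) (dis : Disjoint Y (P ∪ Q))
    (adj : ∀ u ∈ Y, ∀ w ∈ P ∪ Q, G.Adj u w ↔ u = b1 ∧ (w = b2 ∨ w = b3))
    (hc : c ∉ Y ∪ (P ∪ Q)) (hy : G.Adj c y) (h2 : G.Adj c a2) (h3 : G.Adj c a3)
    (hon : ∀ w ∈ P ∪ Q, G.Adj c w → w = a2 ∨ w = a3) : False := by
  classical
  obtain ⟨f, hf, f0, fk, hY⟩ := IP.pf ipY
  obtain ⟨i0, hi0k, hi0, hmax⟩ : ∃ i0, i0 ≤ k ∧ G.Adj c (f i0) ∧
      ∀ j, i0 < j → j ≤ k → ¬ G.Adj c (f j) := by
    refine ⟨Nat.findGreatest (fun i => G.Adj c (f i)) k, Nat.findGreatest_le k, ?_, ?_⟩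
    · exact Nat.findGreatest_spec (P := fun i => G.Adj c (f i)) (m := 0) (Nat.zero_le _)
        (by rw [f0]; exact hy)
    · intro j hj hjk
      exact Nat.findGreatest_is_greatest hj hjk
  have hsub : ∀ w ∈ seg f i0 k, w ∈ Y := by
    rintro w ⟨j, h1, h2, rfl⟩
    rw [hY]
    exact ⟨j, Nat.zero_le _, h2, rfl⟩
  have hcY : c ∉ Y := fun h => hc (Or.inl h)
  have hcP : c ∉ P := fun h => hc (Or.inr (Or.inl h))
  have hcQ : c ∉ Q := fun h => hc (Or.inr (Or.inr h))
  have hseg := hf.seg hi0k le_rfl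
  rw [fk] at hseg
  have hcs : c ∉ seg f i0 k := fun h => hcY (hsub c h)
  have hip0 : IP G (k - i0 + 1) c b1 (insert c (seg f i0 k)) := by
    refine hseg.cons hcs ?_
    rintro w ⟨j, h1, h2, rfl⟩
    constructor
    · intro h
      by_cases hj : j = i0
      · rw [hj]
      · exact absurd h (hmax j (by omega) h2)
    · intro h
      rw [h]
      exact hi0
  have a2P : a2 ∈ P := cy.ipP.left_mem
  have a3Q : a3 ∈ Q := cy.ipQ.left_mem
  have b2P : b2 ∈ P := cy.ipP.right_mem
  have b3Q : b3 ∈ Q := cy.ipQ.right_mem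
  have hcb1 : c ≠ b1 := fun h => hcY (h ▸ ipY.right_mem)
  have hPQ : ∀ u ∈ P, ∀ w ∈ Q, u ≠ w := fun u hu w hw h =>
    Set.disjoint_left.1 cy.dis hu (h ▸ hw)
  have hYP : ∀ u ∈ Y, ∀ w ∈ P, u ≠ w := fun u hu w hw h =>
    Set.disjoint_left.1 dis hu (Or.inl (h ▸ hw))
  have hYQ : ∀ u ∈ Y, ∀ w ∈ Q, u ≠ w := fun u hu w hw h =>
    Set.disjoint_left.1 dis hu (Or.inr (h ▸ hw))
  have adj01 : ∀ u ∈ insert c (seg f i0 k), ∀ v ∈ P,
      G.Adj u v ↔ (u = c ∧ v = a2) ∨ (u = b1 ∧ v = b2) := by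
    intro u hu v hv
    rcases hu with rfl | hu
    · constructor
      · intro h
        rcases hon v (Or.inl hv) h with h' | h'
        · exact Or.inl ⟨rfl, h'⟩
        · exact absurd h' (hPQ v hv a3 a3Q)
      · rintro (⟨-, rfl⟩ | ⟨h, -⟩)
        · exact h2
        · exact absurd h hcb1
    · have huY := hsub u hu
      rw [adj u huY v (Or.inl hv)]
      constructor
      · rintro ⟨h, h' | h'⟩
        · exact Or.inr ⟨h, h'⟩
        · exact absurd h' (hPQ v hv b3 b3Q)
      · rintro (⟨h, -⟩ | ⟨h, h'⟩)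
        · exact absurd (h ▸ huY) hcY
        · exact ⟨h, Or.inl h'⟩
  have adj02 : ∀ u ∈ insert c (seg f i0 k), ∀ v ∈ Q,
      G.Adj u v ↔ (u = c ∧ v = a3) ∨ (u = b1 ∧ v = b3) := by
    intro u hu v hv
    rcases hu with rfl | hu
    · constructor
      · intro h
        rcases hon v (Or.inr hv) h with h' | h'
        · exact absurd h'.symm (hPQ a2 a2P v hv)
        · exact Or.inl ⟨rfl, h'⟩
      · rintro (⟨-, rfl⟩ | ⟨h, -⟩)
        · exact h3
        · exact absurd h hcb1
    · have huY := hsub u hu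
      rw [adj u huY v (Or.inr hv)]
      constructor
      · rintro ⟨h, h' | h'⟩
        · exact absurd h'.symm (hPQ b2 b2P v hv)
        · exact Or.inr ⟨h, h'⟩
      · rintro (⟨h, -⟩ | ⟨h, h'⟩)
        · exact absurd (h ▸ huY) hcY
        · exact ⟨h, Or.inr h'⟩
  have d01 : Disjoint (insert c (seg f i0 k)) P := by
    rw [Set.disjoint_left]
    rintro u (rfl | hu) hv
    · exact hcP hv
    · exact hYP u (hsub u hu) u hv rfl
  have d02 : Disjoint (insert c (seg f i0 k)) Q := by
    rw [Set.disjoint_left]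
    rintro u (rfl | hu) hv
    · exact hcQ hv
    · exact hYQ u (hsub u hu) u hv rfl
  have hpr : Prism G ![c, a2, a3] ![b1, b2, b3] ![k - i0 + 1, n, m]
      ![insert c (seg f i0 k), P, Q] := by
    refine ⟨?_, ?_, ?_, ?_⟩
    · intro i
      fin_cases i
      · exact hip0
      · exact cy.ipP
      · exact cy.ipQ
    · intro i
      fin_cases i
      · show 1 ≤ k - i0 + 1
        omega
      · exact cy.hn.pos
      · exact cy.hm.pos
    · intro i j hij
      fin_cases i <;> fin_cases j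
      · exact absurd rfl hij
      · exact d01
      · exact d02
      · exact d01.symm
      · exact absurd rfl hij
      · exact cy.dis
      · exact d02.symm
      · exact cy.dis.symm
      · exact absurd rfl hij
    · intro i j hij
      fin_cases i <;> fin_cases j
      · exact absurd rfl hij
      · exact adj01
      · exact adj02
      · intro u hu v hv
        show G.Adj u v ↔ (u = a2 ∧ v = c) ∨ (u = b2 ∧ v = b1)
        rw [G.adj_comm, adj01 v hv u hu]
        constructor
        · rintro (⟨h, h'⟩ | ⟨h, h'⟩)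
          · exact Or.inl ⟨h', h⟩
          · exact Or.inr ⟨h', h⟩
        · rintro (⟨h, h'⟩ | ⟨h, h'⟩)
          · exact Or.inl ⟨h', h⟩
          · exact Or.inr ⟨h', h⟩
      · exact absurd rfl hij
      · exact cy.adj
      · intro u hu v hv
        show G.Adj u v ↔ (u = a3 ∧ v = c) ∨ (u = b3 ∧ v = b1)
        rw [G.adj_comm, adj02 v hv u hu]
        constructor
        · rintro (⟨h, h'⟩ | ⟨h, h'⟩)
          · exact Or.inl ⟨h', h⟩
          · exact Or.inr ⟨h', h⟩
        · rintro (⟨h, h'⟩ | ⟨h, h'⟩)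
          · exact Or.inl ⟨h', h⟩
          · exact Or.inr ⟨h', h⟩
      · intro u hu v hv
        show G.Adj u v ↔ (u = a3 ∧ v = a2) ∨ (u = b3 ∧ v = b2)
        rw [G.adj_comm, cy.adj v hv u hu]
        constructor
        · rintro (⟨h, h'⟩ | ⟨h, h'⟩)
          · exact Or.inl ⟨h', h⟩
          · exact Or.inr ⟨h', h⟩
        · rintro (⟨h, h'⟩ | ⟨h, h'⟩)
          · exact Or.inl ⟨h', h⟩
          · exact Or.inr ⟨h', h⟩
      · exact absurd rfl hij
  have he : Even n := (hEVN V G _ _ _ _ noh hpr).2 nop 1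
  exact (Nat.not_even_iff_odd.2 cy.hn) he

/-- the final configuration -/
theorem core {V : Type} {G : SimpleGraph V} {s t y : V} {k n m p q N : ℕ} {g : ℕ → V}
    (noh : NOH G) (nah : NAH G) (hst : s ≠ t) (hnst : ¬ G.Adj s t) (hN : N = n + m + 1)
    (hn : Odd n) (hm : Odd m)
    (gi : ∀ i j, i ≤ N → j ≤ N → g i = g j → i = j)
    (ga : ∀ i j, i ≤ N → j ≤ N → (G.Adj (g i) (g j) ↔ i + 1 = j ∨ j + 1 = i ∨
      (i = 0 ∧ j = N) ∨ (j = 0 ∧ i = N)))
    (hs : ∀ i, i ≤ N → s ≠ g i) (ht : ∀ i, i ≤ N → t ≠ g i) (hy : ∀ i, i ≤ N → y ≠ g i)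
    (hsy : G.Adj s y) (hty : G.Adj t y)
    (s0 : G.Adj s (g 0)) (t0 : G.Adj t (g 0)) (sN : G.Adj s (g N)) (tN : G.Adj t (g N))
    (hex : ∀ i, 0 < i → i < N → ¬ (G.Adj s (g i) ∧ G.Adj t (g i)))
    (hyg : ∀ i, i ≤ N → (G.Adj y (g i) ↔ k = 0 ∧ (i = n ∨ i = n + 1)))
    (hp : 0 < p) (hpq : p < q) (hq : q < N) (sp : G.Adj s (g p)) (tq : G.Adj t (g q))
    (hbt : ∀ i, p < i → i < q → ¬ G.Adj s (g i) ∧ ¬ G.Adj t (g i)) (hodd : Odd (p + q)) :
    False := by
  classical
  have hmpos := hm.pos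
  have hnpos := hn.pos
  have spq : ¬ G.Adj s (g q) := fun h => hex q (by omega) hq ⟨h, tq⟩
  have tpq : ¬ G.Adj t (g p) := fun h => hex p hp (by omega) ⟨sp, h⟩
  have hseg := cyc_seg gi ga hpq.le hq.le (by omega)
  have hsn : s ∉ seg g p q := by
    rintro ⟨i, h1, h2, h3⟩
    exact hs i (by omega) h3.symm
  have htn : t ∉ seg g p q := by
    rintro ⟨i, h1, h2, h3⟩
    exact ht i (by omega) h3.symm
  have hR1 : IP G (q - p + 1) s (g q) (insert s (seg g p q)) := by
    refine hseg.cons hsn ?_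
    rintro w ⟨i, h1, h2, rfl⟩
    constructor
    · intro h
      rcases Nat.lt_trichotomy i p with h' | h' | h'
      · omega
      · rw [h']
      · rcases Nat.lt_trichotomy i q with h'' | h'' | h''
        · exact absurd h (hbt i h' h'').1
        · rw [h''] at h
          exact absurd h spq
        · omega
    · intro h
      rw [h]
      exact sp
  have hR2 : IP G (q - p + 1 + 1) s t (insert t (insert s (seg g p q))) := by
    refine hR1.snoc ?_ ?_
    · rintro (h | h)
      · exact hst h.symm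
      · exact htn h
    · rintro w (rfl | ⟨i, h1, h2, rfl⟩)
      · constructor
        · intro h
          exact absurd h.symm hnst
        · intro h
          exact absurd h (hs q hq.le)
      · constructor
        · intro h
          rcases Nat.lt_trichotomy i q with h' | h' | h'
          · rcases Nat.lt_trichotomy i p with h'' | h'' | h''
            · omega
            · rw [h''] at h
              exact absurd h tpq
            · exact absurd h (hbt i h'' h').2
          · rw [h']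
          · omega
        · intro h
          rw [h]
          exact tq
  have hole1 : ∀ c : V, G.Adj c s → G.Adj c t → (∀ i, p ≤ i → i ≤ q → c ≠ g i) →
      (∀ i, p ≤ i → i ≤ q → ¬ G.Adj c (g i)) → False := by
    intro c h1 h2 h3 h4
    have he := noh _ s t c _ hR2 (by omega) (by
      rintro (h | h | ⟨i, h5, h6, h7⟩)
      · exact h2.ne h
      · exact h1.ne h
      · exact h3 i h5 h6 h7.symm) h1 h2 (by
      rintro w (rfl | rfl | ⟨i, h5, h6, rfl⟩) hw
      · exact Or.inr rfl
      · exact Or.inl rfl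
      · exact absurd hw (h4 i h5 h6))
    obtain ⟨e, he⟩ := he
    obtain ⟨o, ho⟩ := hodd
    omega
  have hp1 : p = 1 := by
    by_contra hne
    refine hole1 (g 0) s0.symm t0.symm ?_ ?_
    · intro i h1 h2 h3
      have := gi 0 i (by omega) (by omega) h3
      omega
    · intro i h1 h2
      rw [ga 0 i (by omega) (by omega)]
      omega
  have hq1 : q + 1 = N := by
    by_contra hne
    refine hole1 (g N) sN.symm tN.symm ?_ ?_
    · intro i h1 h2 h3
      have := gi N i (by omega) (by omega) h3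
      omega
    · intro i h1 h2
      rw [ga N i (by omega) (by omega)]
      omega
  subst hp1
  have hk : k = 0 := by
    by_contra hk
    refine hole1 y hsy.symm hty.symm ?_ ?_
    · intro i h1 h2
      exact hy i (by omega)
    · intro i h1 h2
      rw [hyg i (by omega)]
      rintro ⟨h3, -⟩
      exact hk h3
  have hn1 : n = 1 := by
    by_contra hn1
    have hn3 : 3 ≤ n := by
      obtain ⟨o, ho⟩ := hn
      omega
    have h1 := cyc_seg gi ga (i := 1) (j := n) (by omega) (by omega) (by omega)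
    have h2 : IP G (n - 1 + 1) (g 1) y (insert y (seg g 1 n)) := by
      refine h1.snoc ?_ ?_
      · rintro ⟨i, h3, h4, h5⟩
        exact hy i (by omega) h5.symm
      · rintro w ⟨i, h3, h4, rfl⟩
        rw [hyg i (by omega)]
        constructor
        · rintro ⟨-, h5 | h5⟩
          · rw [h5]
          · omega
        · intro h5
          have := gi i n (by omega) (by omega) h5
          exact ⟨hk, Or.inl this⟩
    have he := noh _ _ _ s _ h2 (by omega) (by
      rintro (h | ⟨i, h3, h4, h5⟩)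
      · exact hsy.ne h
      · exact hs i (by omega) h5.symm) sp hsy (by
      rintro w (rfl | ⟨i, h3, h4, rfl⟩) hw
      · exact Or.inr rfl
      · left
        by_cases h5 : i = 1
        · rw [h5]
        · exact absurd hw (hbt i (by omega) (by omega)).1)
    obtain ⟨e, he⟩ := he
    obtain ⟨o, ho⟩ := hn
    omega
  have hm1 : m = 1 := by
    by_contra hm1
    have hm3 : 3 ≤ m := by
      obtain ⟨o, ho⟩ := hm
      omega
    have h1 := cyc_seg gi ga (i := n + 1) (j := q) (by omega) (by omega) (by omega)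
    have h2 : IP G (q - (n + 1) + 1) y (g q) (insert y (seg g (n + 1) q)) := by
      refine h1.cons ?_ ?_
      · rintro ⟨i, h3, h4, h5⟩
        exact hy i (by omega) h5.symm
      · rintro w ⟨i, h3, h4, rfl⟩
        rw [hyg i (by omega)]
        constructor
        · rintro ⟨-, h5 | h5⟩
          · omega
          · rw [h5]
        · intro h5
          have := gi i (n + 1) (by omega) (by omega) h5
          exact ⟨hk, Or.inr this⟩
    have he := noh _ _ _ t _ h2 (by omega) (by
      rintro (h | ⟨i, h3, h4, h5⟩)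
      · exact hty.ne h
      · exact ht i (by omega) h5.symm) hty tq (by
      rintro w (rfl | ⟨i, h3, h4, rfl⟩) hw
      · exact Or.inl rfl
      · right
        by_cases h5 : i = q
        · rw [h5]
        · exact absurd hw (hbt i (by omega) (by omega)).2)
    obtain ⟨e, he⟩ := he
    obtain ⟨o, ho⟩ := hm
    omega
  -- the antihole
  subst hn1
  subst hm1
  obtain rfl : N = 3 := by omega
  obtain rfl : q = 2 := by omega
  have y0 : ¬ G.Adj y (g 0) := by rw [hyg 0 (by omega)]; omega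
  have y1 : G.Adj y (g 1) := by rw [hyg 1 (by omega)]; omega
  have y2 : G.Adj y (g 2) := by rw [hyg 2 (by omega)]; omega
  have y3 : ¬ G.Adj y (g 3) := by rw [hyg 3 (by omega)]; omega
  have g01 : G.Adj (g 0) (g 1) := by rw [ga 0 1 (by omega) (by omega)]; omega
  have g02 : ¬ G.Adj (g 0) (g 2) := by rw [ga 0 2 (by omega) (by omega)]; omega
  have g03 : G.Adj (g 0) (g 3) := by rw [ga 0 3 (by omega) (by omega)]; omega
  have g12 : G.Adj (g 1) (g 2) := by rw [ga 1 2 (by omega) (by omega)]; omega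
  have g13 : ¬ G.Adj (g 1) (g 3) := by rw [ga 1 3 (by omega) (by omega)]; omega
  have g23 : G.Adj (g 2) (g 3) := by rw [ga 2 3 (by omega) (by omega)]; omega
  have n02 : g 0 ≠ g 2 := fun h => by have := gi 0 2 (by omega) (by omega) h; omega
  have n13 : g 1 ≠ g 3 := fun h => by have := gi 1 3 (by omega) (by omega) h; omega
  have cadj : ∀ u w : V, u ≠ w → ¬ G.Adj u w → Gᶜ.Adj u w := fun u w h1 h2 => by
    rw [SimpleGraph.compl_adj]
    exact ⟨h1, h2⟩
  have cnot : ∀ u w : V, G.Adj u w → ¬ Gᶜ.Adj u w := fun u w h1 h2 => by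
    rw [SimpleGraph.compl_adj] at h2
    exact h2.2 h1
  -- the path t, g 1, g 3, y, g 0, g 2 of the complement
  have p0 : IP Gᶜ 0 (g 2) (g 2) {g 2} := IP.zero _
  have p1 : IP Gᶜ 1 (g 0) (g 2) (insert (g 0) {g 2}) := by
    refine p0.cons (fun h => n02 h) ?_
    intro w hw
    rw [Set.mem_singleton_iff.1 hw]
    exact ⟨fun _ => rfl, fun _ => cadj _ _ n02 g02⟩
  have p2 : IP Gᶜ 2 y (g 2) (insert y (insert (g 0) {g 2})) := by
    refine p1.cons ?_ ?_
    · rintro (h | h)
      · exact hy 0 (by omega) h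
      · exact hy 2 (by omega) h
    · rintro w (rfl | h)
      · exact ⟨fun _ => rfl, fun _ => cadj _ _ (hy 0 (by omega)) y0⟩
      · rw [Set.mem_singleton_iff.1 h]
        exact ⟨fun h' => absurd h' (cnot _ _ y2), fun h' => absurd h'.symm n02⟩
  have p3 : IP Gᶜ 3 (g 3) (g 2) (insert (g 3) (insert y (insert (g 0) {g 2}))) := by
    refine p2.cons ?_ ?_
    · rintro (h | h | h)
      · exact hy 3 (by omega) h.symm
      · exact g03.ne h.symm
      · exact g23.ne h.symm
    · rintro w (rfl | rfl | h)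
      · exact ⟨fun _ => rfl, fun _ => cadj _ _ (hy 3 (by omega)).symm (fun h => y3 h.symm)⟩
      · exact ⟨fun h' => absurd h' (cnot _ _ g03.symm), fun h' => absurd h'.symm (hy 0 (by omega))⟩
      · rw [Set.mem_singleton_iff.1 h]
        exact ⟨fun h' => absurd h' (cnot _ _ g23.symm), fun h' => absurd h'.symm (hy 2 (by omega))⟩
  have p4 : IP Gᶜ 4 (g 1) (g 2)
      (insert (g 1) (insert (g 3) (insert y (insert (g 0) {g 2})))) := by
    refine p3.cons ?_ ?_
    · rintro (h | h | h | h)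
      · exact n13 h
      · exact hy 1 (by omega) h.symm
      · exact g01.ne h.symm
      · exact g12.ne h
    · rintro w (rfl | rfl | rfl | h)
      · exact ⟨fun _ => rfl, fun _ => cadj _ _ n13 g13⟩
      · exact ⟨fun h' => absurd h' (cnot _ _ y1.symm), fun h' => absurd h' (hy 3 (by omega))⟩
      · exact ⟨fun h' => absurd h' (cnot _ _ g01.symm), fun h' => absurd h' g03.ne⟩
      · rw [Set.mem_singleton_iff.1 h]
        exact ⟨fun h' => absurd h' (cnot _ _ g12), fun h' => absurd h' g23.ne⟩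
  have p5 : IP Gᶜ 5 t (g 2)
      (insert t (insert (g 1) (insert (g 3) (insert y (insert (g 0) {g 2}))))) := by
    refine p4.cons ?_ ?_
    · rintro (h | h | h | h | h)
      · exact ht 1 (by omega) h
      · exact ht 3 (by omega) h
      · exact hty.ne h
      · exact ht 0 (by omega) h
      · exact ht 2 (by omega) h
    · rintro w (rfl | rfl | rfl | rfl | h)
      · exact ⟨fun _ => rfl, fun _ => cadj _ _ (ht 1 (by omega)) tpq⟩
      · exact ⟨fun h' => absurd h' (cnot _ _ tN), fun h' => absurd h'.symm n13⟩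
      · exact ⟨fun h' => absurd h' (cnot _ _ hty), fun h' => absurd h' (hy 1 (by omega))⟩
      · exact ⟨fun h' => absurd h' (cnot _ _ t0), fun h' => absurd h' g01.ne⟩
      · rw [Set.mem_singleton_iff.1 h]
        exact ⟨fun h' => absurd h' (cnot _ _ tq), fun h' => absurd h'.symm g12.ne⟩
  refine nah 5 t (g 2) s _ p5 (by omega) ?_ (cadj _ _ hst hnst) (cadj _ _ (hs 2 (by omega)) spq) ?_
  · rintro (h | h | h | h | h | h)
    · exact hst h
    · exact hs 1 (by omega) h
    · exact hs 3 (by omega) h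
    · exact hsy.ne h
    · exact hs 0 (by omega) h
    · exact hs 2 (by omega) h
  · rintro w (rfl | rfl | rfl | rfl | rfl | h) hw
    · exact Or.inl rfl
    · exact absurd hw (cnot _ _ sp)
    · exact absurd hw (cnot _ _ sN)
    · exact absurd hw (cnot _ _ hsy)
    · exact absurd hw (cnot _ _ s0)
    · exact Or.inr h

theorem pf_MPC (hLAB : T_LAB) (hEVN : T_EVN) (hHTR : T_HTR) : T_MPC := by
  classical
  intro V G s t k n m y b1 a2 b2 a3 b3 Y P Q noh nop nah hst hnst cy ipY hk dis adj hs ht hcom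
  obtain ⟨g, g0, gn, gn1, gN, hP, hQ, gi, ga⟩ := cy.fn
  obtain ⟨N, hN⟩ : ∃ N, N = n + m + 1 := ⟨_, rfl⟩
  rw [← hN] at gN hQ gi ga
  have hn1 : 1 ≤ n := cy.hn.pos
  have hm1 : 1 ≤ m := cy.hm.pos
  have hPQ : ∀ i, i ≤ N → g i ∈ P ∪ Q := by
    intro i hi
    by_cases h : i ≤ n
    · left
      rw [hP]
      exact ⟨i, Nat.zero_le _, h, rfl⟩
    · right
      rw [hQ]
      exact ⟨i, by omega, hi, rfl⟩
  have hPQ' : ∀ w ∈ P ∪ Q, ∃ i, i ≤ N ∧ g i = w := by
    rintro w (hw | hw)
    · rw [hP] at hw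
      obtain ⟨i, h1, h2, h3⟩ := hw
      exact ⟨i, by omega, h3⟩
    · rw [hQ] at hw
      obtain ⟨i, h1, h2, h3⟩ := hw
      exact ⟨i, by omega, h3⟩
  have hyY : y ∈ Y := ipY.left_mem
  have hsg : ∀ i, i ≤ N → s ≠ g i := fun i hi h => hs (Or.inr (h ▸ hPQ i hi))
  have htg : ∀ i, i ≤ N → t ≠ g i := fun i hi h => ht (Or.inr (h ▸ hPQ i hi))
  have hyg0 : ∀ i, i ≤ N → y ≠ g i := fun i hi h =>
    Set.disjoint_left.1 dis hyY (h ▸ hPQ i hi)
  have cy_ := (hcom y (Or.inl hyY)).2 (Or.inl rfl)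
  have c2 := (hcom a2 (Or.inr (Or.inl cy.ipP.left_mem))).2 (Or.inr (Or.inl rfl))
  have c3 := (hcom a3 (Or.inr (Or.inr cy.ipQ.left_mem))).2 (Or.inr (Or.inr rfl))
  have hex : ∀ i, 0 < i → i < N → ¬ (G.Adj s (g i) ∧ G.Adj t (g i)) := by
    intro i h0 h1 h
    rcases (hcom (g i) (Or.inr (hPQ i h1.le))).1 h with h' | h' | h'
    · exact hyg0 i h1.le h'.symm
    · rw [← g0] at h'
      have := gi i 0 h1.le (by omega) h'
      omega
    · rw [← gN] at h'
      have := gi i N h1.le (by omega) h'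
      omega
  have hyg : ∀ i, i ≤ N → (G.Adj y (g i) ↔ k = 0 ∧ (i = n ∨ i = n + 1)) := by
    intro i hi
    rw [adj y hyY (g i) (hPQ i hi)]
    constructor
    · rintro ⟨h1, h2⟩
      refine ⟨?_, ?_⟩
      · by_contra hk0
        exact ipY.ne (by omega) h1
      · rcases h2 with h2 | h2
        · left
          rw [← gn] at h2
          exact gi i n hi (by omega) h2
        · right
          rw [← gn1] at h2
          exact gi i (n + 1) hi (by omega) h2
    · rintro ⟨h1, h2⟩
      refine ⟨?_, ?_⟩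
      · rw [h1] at ipY
        exact ipY.eq_of_zero.1
      · rcases h2 with h2 | h2
        · left
          rw [h2, gn]
        · right
          rw [h2, gn1]
  have hfur : ∀ c, c ∉ Y ∪ (P ∪ Q) → G.Adj c y → G.Adj c a2 → G.Adj c a3 →
      ∃ i, 0 < i ∧ i < N ∧ G.Adj c (g i) := by
    intro c h1 h2 h3 h4
    by_contra hc
    push Not at hc
    refine one hEVN noh nop cy ipY dis adj h1 h2 h3 h4 ?_
    intro w hw hcw
    obtain ⟨i, hi, rfl⟩ := hPQ' w hw
    by_cases h5 : i = 0
    · left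
      rw [h5, g0]
    · by_cases h6 : i = N
      · right
        rw [h6, gN]
      · exact absurd hcw (hc i (by omega) (by omega))
  have hgap : ∀ c, c ∉ Y ∪ (P ∪ Q) → (∃ i, 0 < i ∧ i < N ∧ G.Adj c (g i)) → ∀ i j, i < j →
      j ≤ N → G.Adj c (g i) → G.Adj c (g j) → (∀ k, i < k → k < j → ¬ G.Adj c (g k)) →
      j = i + 1 ∨ Even (j - i) := by
    intro c h1 ⟨i0, h2, h3, h4⟩ i j hij hj hi' hj' hbt
    by_cases h5 : j = i + 1
    · exact Or.inl h5
    right
    have hne : ¬ (i = 0 ∧ j = N) := by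
      rintro ⟨rfl, rfl⟩
      exact hbt i0 h2 h3 h4
    have hsg := cyc_seg gi ga hij.le hj hne
    refine noh _ _ _ c _ hsg (by omega) ?_ hi' hj' ?_
    · rintro ⟨l, h6, h7, h8⟩
      exact h1 (Or.inr (h8 ▸ hPQ l (by omega)))
    · rintro w ⟨l, h6, h7, rfl⟩ hw
      by_cases h9 : l = i
      · left
        rw [h9]
      · by_cases h10 : l = j
        · right
          rw [h10]
        · exact absurd hw (hbt l (by omega) (by omega))
  have hs1 := hfur s hs cy_.1 c2.1 c3.1
  have ht1 := hfur t ht cy_.2 c2.2 c3.2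
  have hNo : Odd N := by
    obtain ⟨o, ho⟩ := cy.hn
    obtain ⟨o', ho'⟩ := cy.hm
    exact ⟨o + o' + 1, by omega⟩
  obtain ⟨i, j, hi0, hiN, hj0, hjN, hsi, htj, hb1, hb2, hodd⟩ := hLAB N
    (fun i => G.Adj s (g i)) (fun i => G.Adj t (g i)) hNo (by omega)
    (by rw [g0]; exact c2.1) (by rw [g0]; exact c2.2) (by rw [gN]; exact c3.1)
    (by rw [gN]; exact c3.2) hex (hgap s hs hs1) (hgap t ht ht1)
  rcases Nat.lt_trichotomy i j with h | h | h
  · exact core noh nah hst hnst hN cy.hn cy.hm gi ga hsg htg hyg0 cy_.1 cy_.2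
      (by rw [g0]; exact c2.1) (by rw [g0]; exact c2.2) (by rw [gN]; exact c3.1)
      (by rw [gN]; exact c3.2) hex hyg hi0 h hjN hsi htj hb1 hodd
  · rw [h] at hsi
    exact hex j hj0 hjN ⟨hsi, htj⟩
  · exact core noh nah hst.symm (fun h' => hnst h'.symm) hN cy.hn cy.hm gi ga htg hsg hyg0
      cy_.2 cy_.1
      (by rw [g0]; exact c2.2) (by rw [g0]; exact c2.1) (by rw [gN]; exact c3.2)
      (by rw [gN]; exact c3.1) (fun i h1 h2 h3 => hex i h1 h2 ⟨h3.2, h3.1⟩) hyg hj0 h hiN htj hsi
      (fun i h1 h2 => ⟨(hb2 i h1 h2).2, (hb2 i h1 h2).1⟩) (by rw [add_comm]; exact hodd)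

end Pool.Agent.H21.ER2
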